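import Pool.Agent.helper13.BN.Stmt
import Pool.Agent.helper13.BN.Defs3

set_option autoImplicit false

/-!
# MP_94a57f_an, module BN-D7: the reduced function on a rectangle
-/

open MeasureTheory Filter Topology Set Metric
open scoped ContDiff Gradient RealInnerProductSpace ENNReal

noncomputable section

namespace Pool.Agent.helper13.BN

variable {N : ℕ}

private lemma mem_frontier_rect {x1 x2 y1 y2 x y : ℝ} (hx : x1 ≤ x2) (hy : y1 ≤ y2)
    (h : (x, y) ∈ frontier (Icc x1 x2 ×ˢ Icc y1 y2)) :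
    x ∈ Icc x1 x2 ∧ y ∈ Icc y1 y2 ∧ (x = x1 ∨ x = x2 ∨ y = y1 ∨ y = y2) := by
  rw [frontier_prod_eq, frontier_Icc hx, frontier_Icc hy, isClosed_Icc.closure_eq,
    isClosed_Icc.closure_eq] at h
  rcases h with ⟨h1, h2⟩ | ⟨h1, h2⟩
  · simp only [mem_insert_iff, mem_singleton_iff] at h1 h2
    refine ⟨h1, ?_, ?_⟩
    · rcases h2 with h2 | h2 <;> rw [h2] <;> constructor <;> linarith
    · tauto
  · simp only [mem_insert_iff, mem_singleton_iff] at h1 h2
    refine ⟨?_, h2, ?_⟩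
    · rcases h1 with h1 | h1 <;> rw [h1] <;> constructor <;> linarith
    · tauto

private lemma alN_pos' (hN : 3 ≤ N) : 0 < alN N := by
  unfold alN
  have h3 : (3 : ℝ) ≤ N := by exact_mod_cast hN
  apply Real.rpow_pos_of_pos
  nlinarith

/-- the two low-dimensional cases, with `k = (2 x)^{2-N}` -/
private lemma rect34 (hN : N = 3 ∨ N = 4) {a b : ℝ} (ha : 0 < a) :
    ∃ x1 x0 x2 y1 y0 y2 m : ℝ, 0 < x1 ∧ x1 < x0 ∧ x0 < x2 ∧ x2 < 1 ∧ 0 < y1 ∧ y1 < y0 ∧ y0 < y2 ∧
      0 < m ∧ m ≤ -bet N * ered N a b x0 y0 ∧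
      ∀ x y : ℝ, (x, y) ∈ frontier (Icc x1 x2 ×ˢ Icc y1 y2) → -bet N * ered N a b x y ≤ m / 2 := by
  have hN5 : N ≠ 5 := by rcases hN with h | h <;> omega
  have hα : 0 < alN N := alN_pos' (by rcases hN with h | h <;> omega)
  set α := alN N with hαd
  have hval : ∀ x y : ℝ, -bet N * ered N a b x y =
      a * (y * (x - x ^ 3) - α / 2 * (2 * x) ^ (2 - (N : ℝ)) * y ^ 2) := by
    intro x y
    simp only [bet, ered, if_neg hN5]
    ring
  -- bounds on the weight
  have hk : ∀ x : ℝ, 0 < x → (2 * x) ^ (2 - (N : ℝ)) = (2 * x)⁻¹ ∨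
      (2 * x) ^ (2 - (N : ℝ)) = ((2 * x) ^ 2)⁻¹ := by
    intro x hx
    rcases hN with h | h
    · left
      rw [h]
      have : (2 - ((3 : ℕ) : ℝ)) = -1 := by norm_num
      rw [this, Real.rpow_neg_one]
    · right
      rw [h]
      have : (2 - ((4 : ℕ) : ℝ)) = -((2 : ℕ) : ℝ) := by norm_num
      rw [this, Real.rpow_neg (by positivity), Real.rpow_natCast]
  have hm0 : 0 < 9 * a / (128 * α) := by positivity
  refine ⟨1 / 4, 1 / 2, 19 / 20, 9 / (256 * α), 3 / (8 * α), 4 / α, 9 * a / (128 * α),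
    by norm_num, by norm_num, by norm_num, by norm_num, by positivity, ?_, ?_, hm0, ?_, ?_⟩
  · rw [div_lt_div_iff₀ (by positivity) (by positivity)]; nlinarith
  · rw [div_lt_div_iff₀ (by positivity) (by positivity)]; nlinarith
  · rw [hval]
    have h1 : ((2 : ℝ) * (1 / 2)) ^ (2 - (N : ℝ)) = 1 := by
      rw [show (2 : ℝ) * (1 / 2) = 1 by norm_num, Real.one_rpow]
    rw [h1]
    apply le_of_eq
    field_simp
    ring
  · intro x y hxy
    obtain ⟨hx, hy, hc⟩ := mem_frontier_rect (by norm_num)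
      (by rw [div_le_div_iff₀ (by positivity) (by positivity)]; nlinarith) hxy
    have hx0 : 0 < x := lt_of_lt_of_le (by norm_num) hx.1
    have hx1 : x ≤ 19 / 20 := hx.2
    have hy0 : 0 < y := lt_of_lt_of_le (by positivity) hy.1
    rw [hval]
    set k := (2 * x) ^ (2 - (N : ℝ)) with hkd
    have hkpos : 0 < k := Real.rpow_pos_of_pos (by positivity) _
    -- general bound: y s - α k y² / 2 ≤ s² / (2 α k)
    have hgen : ∀ s : ℝ, y * s - α / 2 * k * y ^ 2 ≤ s ^ 2 / (2 * α * k) := by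
      intro s
      rw [le_div_iff₀ (by positivity)]
      nlinarith [sq_nonneg (s - α * k * y)]
    rcases hc with h | h | h | h
    · -- x = 1/4
      have hk1 : 1 ≤ k := by
        rcases hk x hx0 with h' | h' <;> rw [hkd, h', h] <;> norm_num
      have h1 : y * (x - x ^ 3) - α / 2 * k * y ^ 2 ≤ 9 / (256 * α) := by
        refine (hgen _).trans ?_
        rw [h, div_le_div_iff₀ (by positivity) (by positivity)]
        nlinarith
      calc a * (y * (x - x ^ 3) - α / 2 * k * y ^ 2) ≤ a * (9 / (256 * α)) :=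
            mul_le_mul_of_nonneg_left h1 ha.le
        _ = 9 * a / (128 * α) / 2 := by field_simp; ring
    · -- x = 19/20
      have hk1 : 1 / 4 ≤ k := by
        rcases hk x hx0 with h' | h' <;> rw [hkd, h', h] <;> norm_num
      have h1 : y * (x - x ^ 3) - α / 2 * k * y ^ 2 ≤ 9 / (256 * α) := by
        refine (hgen _).trans ?_
        rw [h, div_le_div_iff₀ (by positivity) (by positivity)]
        nlinarith
      calc a * (y * (x - x ^ 3) - α / 2 * k * y ^ 2) ≤ a * (9 / (256 * α)) :=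
            mul_le_mul_of_nonneg_left h1 ha.le
        _ = 9 * a / (128 * α) / 2 := by field_simp; ring
    · -- y = y1
      have hs : x - x ^ 3 ≤ 1 := by nlinarith [pow_pos hx0 3]
      have h1 : y * (x - x ^ 3) - α / 2 * k * y ^ 2 ≤ 9 / (256 * α) := by
        have h2 : 0 ≤ α / 2 * k * y ^ 2 := by positivity
        have h3 : y * (x - x ^ 3) ≤ y * 1 := mul_le_mul_of_nonneg_left hs hy0.le
        rw [← h]; linarith
      calc a * (y * (x - x ^ 3) - α / 2 * k * y ^ 2) ≤ a * (9 / (256 * α)) :=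
            mul_le_mul_of_nonneg_left h1 ha.le
        _ = 9 * a / (128 * α) / 2 := by field_simp; ring
    · -- y = y2
      have hk1 : 1 / 4 ≤ k := by
        rcases hk x hx0 with h' | h'
        · rw [hkd, h', ← one_div, div_le_div_iff₀ (by norm_num) (by positivity)]
          nlinarith
        · rw [hkd, h', ← one_div, div_le_div_iff₀ (by norm_num) (by positivity)]
          nlinarith
      have hs : x - x ^ 3 ≤ 1 / 2 := by
        nlinarith [sq_nonneg (x - 1 / 2), sq_nonneg (x + 1), mul_nonneg hx0.le (sq_nonneg (x - 1 / 2))]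
      have h4 : α * y = 4 := by rw [h]; field_simp
      have h1 : y * (x - x ^ 3) - α / 2 * k * y ^ 2 ≤ 0 := by
        have h2 : α / 2 * k * y ^ 2 = (α * y) * k / 2 * y := by ring
        rw [h2, h4]
        nlinarith
      have : a * (y * (x - x ^ 3) - α / 2 * k * y ^ 2) ≤ 0 := mul_nonpos_of_nonneg_of_nonpos ha.le h1
      linarith [half_pos hm0]

/-- the case `N = 5` -/
private lemma rect5 {a b : ℝ} (ha : 0 < a) (hb : 0 < b) :
    ∃ x1 x0 x2 y1 y0 y2 m : ℝ, 0 < x1 ∧ x1 < x0 ∧ x0 < x2 ∧ x2 < 1 ∧ 0 < y1 ∧ y1 < y0 ∧ y0 < y2 ∧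
      0 < m ∧ m ≤ -bet 5 * ered 5 a b x0 y0 ∧
      ∀ x y : ℝ, (x, y) ∈ frontier (Icc x1 x2 ×ˢ Icc y1 y2) → -bet 5 * ered 5 a b x y ≤ m / 2 := by
  have hval : ∀ x t : ℝ, 0 ≤ t → -bet 5 * ered 5 a b x (t ^ 3) =
      a * t ^ 3 * (x - x ^ 3) - b / 2 * t ^ 4 := by
    intro x t ht
    simp only [bet, ered, if_true]
    have : (t ^ 3) ^ ((4 : ℝ) / 3) = t ^ 4 := by
      rw [← Real.rpow_natCast t 3, ← Real.rpow_mul ht, ← Real.rpow_natCast t 4]
      norm_num
    rw [this]; ring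
  -- scale
  set r := a / b with hr
  have hr0 : 0 < r := by positivity
  have har : a = b * r := by rw [hr]; field_simp
  have hm0 : 0 < 27 * b * r ^ 4 * (3 / 8) ^ 4 / 32 := by positivity
  refine ⟨1 / 4, 1 / 2, 19 / 20, (3 / 32) * (9 * r / 16) ^ 3, (9 * r / 16) ^ 3, r ^ 3,
    27 * b * r ^ 4 * (3 / 8) ^ 4 / 32, by norm_num, by norm_num, by norm_num, by norm_num,
    by positivity, ?_, ?_, hm0, ?_, ?_⟩
  · have : 0 < (9 * r / 16) ^ 3 := by positivity
    linarith
  · exact pow_lt_pow_left₀ (by linarith) (by positivity) (by norm_num)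
  · rw [hval _ _ (by positivity), har]
    apply le_of_eq
    ring
  · intro x y hxy
    have h0 : (3 / 32) * (9 * r / 16) ^ 3 ≤ r ^ 3 := by
      have : 0 < r ^ 3 := by positivity
      nlinarith
    obtain ⟨hx, hy, hc⟩ := mem_frontier_rect (by norm_num) h0 hxy
    have hx0 : 0 < x := lt_of_lt_of_le (by norm_num) hx.1
    have hx1 : x ≤ 19 / 20 := hx.2
    have hy0 : 0 < y := lt_of_lt_of_le (by positivity) hy.1
    obtain ⟨t, ht, hty⟩ : ∃ t : ℝ, 0 < t ∧ y = t ^ 3 := by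
      refine ⟨y ^ ((1 : ℝ) / 3), Real.rpow_pos_of_pos hy0 _, ?_⟩
      rw [← Real.rpow_natCast, ← Real.rpow_mul hy0.le]
      norm_num
    subst hty
    rw [hval _ _ ht.le, har]
    obtain ⟨u, hu, htu⟩ : ∃ u : ℝ, 0 < u ∧ t = r * u := ⟨t / r, by positivity, by field_simp⟩
    subst htu
    have e1 : b * r * (r * u) ^ 3 * (x - x ^ 3) - b / 2 * (r * u) ^ 4 =
        (b * r ^ 4) * (u ^ 3 * (x - x ^ 3) - u ^ 4 / 2) := by ring
    have e2 : 27 * b * r ^ 4 * (3 / 8) ^ 4 / 32 / 2 = (b * r ^ 4) * (27 * (3 / 8) ^ 4 / 64) := by ring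
    rw [e1, e2]
    have hbr : 0 < b * r ^ 4 := by positivity
    apply mul_le_mul_of_nonneg_left _ hbr.le
    -- general bound
    have hgen : ∀ s : ℝ, u ^ 3 * s - u ^ 4 / 2 ≤ 27 / 32 * s ^ 4 := by
      intro s
      have : 27 / 32 * s ^ 4 - (u ^ 3 * s - u ^ 4 / 2) =
          (u - 3 / 2 * s) ^ 2 * (u ^ 2 / 2 + u * s / 2 + 3 / 8 * s ^ 2) := by ring
      have h2 : 0 ≤ u ^ 2 / 2 + u * s / 2 + 3 / 8 * s ^ 2 := by
        nlinarith [sq_nonneg (u + s / 2)]
      nlinarith [mul_nonneg (sq_nonneg (u - 3 / 2 * s)) h2]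
    rcases hc with h | h | h | h
    · refine (hgen _).trans ?_
      rw [h]; norm_num
    · refine (hgen _).trans ?_
      rw [h]; norm_num
    · have hs : x - x ^ 3 ≤ 1 / 2 := by
        nlinarith [sq_nonneg (x - 1 / 2), sq_nonneg (x + 1), mul_nonneg hx0.le (sq_nonneg (x - 1 / 2))]
      have h3 : u ^ 3 = 3 / 32 * (9 / 16) ^ 3 := by
        have hr3 : r ^ 3 ≠ 0 := by positivity
        have : r ^ 3 * u ^ 3 = r ^ 3 * (3 / 32 * (9 / 16) ^ 3) := by
          rw [← mul_pow, h]; ring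
        exact mul_left_cancel₀ hr3 this
      have h4 : 0 < u ^ 4 := by positivity
      have h5 : u ^ 3 * (x - x ^ 3) ≤ u ^ 3 * (1 / 2) :=
        mul_le_mul_of_nonneg_left hs (by positivity)
      rw [h3] at h5 ⊢
      norm_num at h5 ⊢
      linarith
    · have hs : x - x ^ 3 ≤ 1 / 2 := by
        nlinarith [sq_nonneg (x - 1 / 2), sq_nonneg (x + 1), mul_nonneg hx0.le (sq_nonneg (x - 1 / 2))]
      have hu1 : u = 1 := by
        have hr3 : r ^ 3 ≠ 0 := by positivity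
        have h3 : u ^ 3 = 1 := by
          have : r ^ 3 * u ^ 3 = r ^ 3 * 1 := by
            rw [← mul_pow, h]; ring
          exact mul_left_cancel₀ hr3 this
        nlinarith [sq_nonneg (u + 1), sq_nonneg (u - 1)]
      rw [hu1]
      norm_num
      linarith

theorem rect (hN : 3 ≤ N) (hN5 : N ≤ 5) {a b : ℝ} (ha : 0 < a) (hb : 0 < b) :
    ∃ x1 x0 x2 y1 y0 y2 m : ℝ, 0 < x1 ∧ x1 < x0 ∧ x0 < x2 ∧ x2 < 1 ∧ 0 < y1 ∧ y1 < y0 ∧ y0 < y2 ∧
      0 < m ∧ m ≤ -bet N * ered N a b x0 y0 ∧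
      ∀ x y : ℝ, (x, y) ∈ frontier (Icc x1 x2 ×ˢ Icc y1 y2) → -bet N * ered N a b x y ≤ m / 2 := by
  rcases (show N = 3 ∨ N = 4 ∨ N = 5 by omega) with h | h | h
  · exact rect34 (Or.inl h) ha
  · exact rect34 (Or.inr h) ha
  · subst h
    exact rect5 ha hb

end Pool.Agent.helper13.BN
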